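import Pool.Agent.V11293.TK.Main

set_option autoImplicit false

open Set Filter Topology MeasureTheory

namespace Pool.Agent.Results.MP_cc494f_an.LevelSets

open Pool.Agent.V11293.TK

/-- the distance from `x` to the nearest integer -/
noncomputable def phi (x : ℝ) : ℝ := |x - round x|

/-- admissible signs: on the unit interval every `ω n` has values `1` and `-1`, and it is constant on
each interval `[j / 2 ^ n, (j + 1) / 2 ^ n)` with `j < 2 ^ n` -/
structure SignData (ω : ℕ → ℝ → ℝ) : Prop where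
  sign : ∀ (n : ℕ) (x : ℝ), 0 ≤ x → x ≤ 1 → ω n x = 1 ∨ ω n x = -1
  const : ∀ (n j : ℕ), j < 2 ^ n → ∀ x ∈ Ico ((j : ℝ) / 2 ^ n) (((j : ℝ) + 1) / 2 ^ n),
    ∀ y ∈ Ico ((j : ℝ) / 2 ^ n) (((j : ℝ) + 1) / 2 ^ n), ω n x = ω n y

/-- the sum of the series `∑ 2 ^ (-n) ω n x φ(2 ^ n x)` -/
noncomputable def takagiSum (ω : ℕ → ℝ → ℝ) (x : ℝ) : ℝ :=
  ∑' n : ℕ, (1 / 2) ^ n * ω n x * phi (2 ^ n * x)

/-- membership (of the restriction to the unit interval) in the class `T_v` -/
def InTv (f : ℝ → ℝ) : Prop :=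
  ∃ ω : ℕ → ℝ → ℝ, SignData ω ∧ ∀ x, 0 ≤ x → x ≤ 1 → f x = takagiSum ω x

/-- the Rademacher functions -/
noncomputable def rademacher (n : ℕ) (x : ℝ) : ℝ := (-1) ^ ⌊(2 : ℝ) ^ n * x⌋

/-- the Gray Takagi function -/
noncomputable def grayTakagi (x : ℝ) : ℝ := takagiSum rademacher x

/-- the level set of `f` at height `y` in the unit interval -/
def levelSet (f : ℝ → ℝ) (y : ℝ) : Set ℝ := {x | 0 ≤ x ∧ x ≤ 1 ∧ f x = y}

lemma phi_nonneg (x : ℝ) : 0 ≤ phi x := abs_nonneg _

lemma phi_le (x : ℝ) : phi x ≤ 1 / 2 := abs_sub_round x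

lemma phi_int (z : ℤ) : phi z = 0 := by unfold phi; simp

lemma phi_add_int (x : ℝ) (z : ℤ) : phi (z + x) = phi x := by
  unfold phi
  rw [add_comm, round_add_intCast]
  push_cast
  congr 1
  ring

lemma phi_unit {x : ℝ} (h0 : 0 ≤ x) (h1 : x ≤ 1) : phi x = min x (1 - x) := by
  rcases eq_or_lt_of_le h1 with rfl | h
  · have := phi_int 1
    push_cast at this
    rw [this]; norm_num
  · unfold phi
    rw [abs_sub_round_eq_min, Int.fract_eq_self.2 ⟨h0, h⟩]

lemma phi_two_pow (n : ℕ) : phi (2 ^ n) = 0 := by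
  have := phi_int (2 ^ n)
  push_cast at this
  exact this

lemma abs_sign {ω : ℕ → ℝ → ℝ} (hω : SignData ω) (n : ℕ) {x : ℝ} (h0 : 0 ≤ x) (h1 : x ≤ 1) :
    |ω n x| = 1 := by
  rcases hω.sign n x h0 h1 with h | h <;> rw [h] <;> simp

lemma term_le {ω : ℕ → ℝ → ℝ} (hω : SignData ω) {x : ℝ} (h0 : 0 ≤ x) (h1 : x ≤ 1) (n : ℕ) :
    ‖(1 / 2) ^ n * ω n x * phi (2 ^ n * x)‖ ≤ (1 / 2) ^ n * (1 / 2) := by
  rw [Real.norm_eq_abs, abs_mul, abs_mul, abs_sign hω n h0 h1, mul_one,
    abs_of_nonneg (phi_nonneg _), abs_of_nonneg (by positivity)]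
  gcongr
  exact phi_le _

lemma summ {ω : ℕ → ℝ → ℝ} (hω : SignData ω) {x : ℝ} (h0 : 0 ≤ x) (h1 : x ≤ 1) :
    Summable (fun n : ℕ => (1 / 2) ^ n * ω n x * phi (2 ^ n * x)) := by
  refine Summable.of_norm_bounded ?_ (term_le hω h0 h1)
  exact summable_geometric_two.mul_right _

lemma sum_abs_le {ω : ℕ → ℝ → ℝ} (hω : SignData ω) {x : ℝ} (h0 : 0 ≤ x) (h1 : x ≤ 1) :
    |takagiSum ω x| ≤ 1 := by
  unfold takagiSum
  rw [← Real.norm_eq_abs]
  refine (tsum_of_norm_bounded (summable_geometric_two.mul_right (1 / 2 : ℝ)).hasSum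
    (term_le hω h0 h1)).trans ?_
  rw [tsum_mul_right, tsum_geometric_two]
  norm_num

lemma sum_rec {ω : ℕ → ℝ → ℝ} (hω : SignData ω) {x : ℝ} (h0 : 0 ≤ x) (h1 : x ≤ 1) :
    2 * takagiSum ω x = 2 * (ω 0 x * phi x) +
      ∑' n : ℕ, (1 / 2) ^ n * ω (n + 1) x * phi (2 ^ n * (2 * x)) := by
  unfold takagiSum
  rw [(summ hω h0 h1).tsum_eq_zero_add, mul_add, ← tsum_mul_left]
  congr 1
  · simp
  · congr 1
    ext n
    rw [pow_succ, pow_succ, show (2 : ℝ) ^ n * 2 * x = 2 ^ n * (2 * x) by ring]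
    ring

lemma sum_one (ω : ℕ → ℝ → ℝ) : takagiSum ω 1 = 0 := by
  unfold takagiSum
  simp [phi_two_pow]

lemma const0 {ω : ℕ → ℝ → ℝ} (hω : SignData ω) {x : ℝ} (h0 : 0 ≤ x) (h1 : x < 1) :
    ω 0 x = ω 0 0 := by
  apply hω.const 0 0 (by norm_num)
  · constructor <;> norm_num <;> assumption
  · constructor <;> norm_num

lemma sum_half {ω : ℕ → ℝ → ℝ} (hω : SignData ω) : 2 * takagiSum ω (1 / 2) = ω 0 0 := by
  rw [sum_rec hω (by norm_num) (by norm_num), const0 hω (by norm_num) (by norm_num),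
    phi_unit (by norm_num) (by norm_num)]
  have : ∀ n : ℕ, (1 / 2 : ℝ) ^ n * ω (n + 1) (1 / 2) * phi (2 ^ n * (2 * (1 / 2))) = 0 := by
    intro n
    rw [show (2 : ℝ) ^ n * (2 * (1 / 2)) = 2 ^ n by ring, phi_two_pow, mul_zero]
  simp_rw [this]
  rw [tsum_zero, min_eq_left (by norm_num)]
  ring

/-- the left half of the sign data -/
noncomputable def wL (ω : ℕ → ℝ → ℝ) : ℕ → ℝ → ℝ := fun n u => ω (n + 1) (u / 2)

/-- the right half of the sign data -/
noncomputable def wR (ω : ℕ → ℝ → ℝ) : ℕ → ℝ → ℝ := fun n u => ω (n + 1) ((1 + u) / 2)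

lemma wL_data {ω : ℕ → ℝ → ℝ} (hω : SignData ω) : SignData (wL ω) := by
  constructor
  · intro n x h0 h1
    exact hω.sign (n + 1) (x / 2) (by linarith) (by linarith)
  · intro n j hj x hx y hy
    have hp : (0 : ℝ) < 2 ^ n := by positivity
    apply hω.const (n + 1) j (by rw [pow_succ]; omega)
    · rw [pow_succ, ← div_div, ← div_div]
      constructor <;> linarith [hx.1, hx.2]
    · rw [pow_succ, ← div_div, ← div_div]
      constructor <;> linarith [hy.1, hy.2]

lemma wR_data {ω : ℕ → ℝ → ℝ} (hω : SignData ω) : SignData (wR ω) := by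
  constructor
  · intro n x h0 h1
    exact hω.sign (n + 1) ((1 + x) / 2) (by linarith) (by linarith)
  · intro n j hj x hx y hy
    have hp : (0 : ℝ) < 2 ^ n := by positivity
    have e1 : ((2 ^ n + j : ℕ) : ℝ) / 2 ^ (n + 1) = (1 + j / 2 ^ n) / 2 := by
      push_cast; rw [pow_succ]; field_simp
    have e2 : (((2 ^ n + j : ℕ) : ℝ) + 1) / 2 ^ (n + 1) = (1 + (j + 1) / 2 ^ n) / 2 := by
      push_cast; rw [pow_succ]; field_simp; ring
    apply hω.const (n + 1) (2 ^ n + j) (by rw [pow_succ]; omega)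
    · rw [e1, e2]
      constructor <;> linarith [hx.1, hx.2]
    · rw [e1, e2]
      constructor <;> linarith [hy.1, hy.2]

/-- sums of a linear function of integer slope and a function of the class -/
def PP (G : ℝ → ℝ) : Prop := ∃ (k : ℤ) (ω : ℕ → ℝ → ℝ), SignData ω ∧
  ∀ t, 0 ≤ t → t ≤ 1 → G t = k * t + takagiSum ω t

lemma sign_int {ω : ℕ → ℝ → ℝ} (hω : SignData ω) : ∃ σ : ℤ, ω 0 0 = σ ∧ (σ = 1 ∨ σ = -1) := by
  rcases hω.sign 0 0 le_rfl zero_le_one with h | h
  · exact ⟨1, by rw [h]; simp, Or.inl rfl⟩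
  · exact ⟨-1, by rw [h]; simp, Or.inr rfl⟩

lemma cl_PP : Cl PP where
  int := by
    rintro G ⟨k, ω, hω, hG⟩
    refine ⟨k, ?_⟩
    rw [hG 1 zero_le_one le_rfl, sum_one]
    ring
  half := by
    rintro G ⟨k, ω, hω, hG⟩
    rw [hG 1 zero_le_one le_rfl, sum_one, hG (1 / 2) (by norm_num) (by norm_num), mul_add,
      sum_half hω]
    rcases hω.sign 0 0 le_rfl zero_le_one with h | h
    · left; rw [h]; ring
    · right; rw [h]; ring
  bdd := by
    rintro G ⟨k, ω, hω, hG⟩ t h0 h1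
    rw [hG 1 zero_le_one le_rfl, sum_one, hG t h0 h1]
    have := sum_abs_le hω h0 h1
    rw [show (k : ℝ) * t + takagiSum ω t - t * (k * 1 + 0) = takagiSum ω t by ring]
    exact this
  left := by
    rintro G ⟨k, ω, hω, hG⟩
    obtain ⟨σ, hσ, _⟩ := sign_int hω
    refine ⟨k + σ, wL ω, wL_data hω, ?_⟩
    intro t h0 h1
    unfold LL
    rw [hG (t / 2) (by linarith) (by linarith), mul_add, sum_rec hω (by linarith) (by linarith),
      phi_unit (by linarith) (by linarith), min_eq_left (by linarith),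
      const0 hω (by linarith) (by linarith), hσ]
    have : takagiSum (wL ω) t = ∑' n : ℕ, (1 / 2) ^ n * ω (n + 1) (t / 2) * phi (2 ^ n * (2 * (t / 2))) := by
      unfold takagiSum wL
      congr 1
      ext n
      rw [show 2 * (t / 2) = t by ring]
    rw [← this]
    push_cast
    ring
  right := by
    rintro G ⟨k, ω, hω, hG⟩
    obtain ⟨σ, hσ, _⟩ := sign_int hω
    refine ⟨k - σ, wR ω, wR_data hω, ?_⟩
    intro t h0 h1
    have h2 : 2 * G (1 / 2) = k + σ := by
      rw [hG (1 / 2) (by norm_num) (by norm_num), mul_add, sum_half hω, hσ]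
      ring
    have h3 : ω 0 ((1 + t) / 2) * phi ((1 + t) / 2) = σ * (1 - (1 + t) / 2) := by
      rw [phi_unit (by linarith) (by linarith), min_eq_right (by linarith)]
      rcases eq_or_lt_of_le h1 with rfl | h
      · norm_num
      · rw [const0 hω (by linarith) (by linarith), hσ]
    unfold RR
    rw [mul_sub, h2, hG ((1 + t) / 2) (by linarith) (by linarith), mul_add,
      sum_rec hω (by linarith) (by linarith), h3]
    have : takagiSum (wR ω) t =
        ∑' n : ℕ, (1 / 2) ^ n * ω (n + 1) ((1 + t) / 2) * phi (2 ^ n * (2 * ((1 + t) / 2))) := by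
      unfold takagiSum wR
      congr 1
      ext n
      have h4 := phi_add_int (2 ^ n * t) (2 ^ n)
      push_cast at h4
      rw [show (2 : ℝ) ^ n * (2 * ((1 + t) / 2)) = 2 ^ n + 2 ^ n * t by ring, h4]
    rw [← this]
    push_cast
    ring
  neg := by
    rintro G ⟨k, ω, hω, hG⟩
    refine ⟨-k, fun n x => - ω n x, ?_, ?_⟩
    · constructor
      · intro n x h0 h1
        rcases hω.sign n x h0 h1 with h | h
        · right; rw [h]
        · left; rw [h]; ring
      · intro n j hj x hx y hy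
        rw [hω.const n j hj x hx y hy]
    · intro t h0 h1
      show -G t = _
      rw [hG t h0 h1]
      unfold takagiSum
      have : ∀ n : ℕ, (1 / 2 : ℝ) ^ n * -ω n t * phi (2 ^ n * t) =
          -((1 / 2) ^ n * ω n t * phi (2 ^ n * t)) := fun n => by ring
      simp_rw [this]
      rw [tsum_neg]
      push_cast
      ring

lemma rademacher_data : SignData rademacher := by
  constructor
  · intro n x _ _
    unfold rademacher
    rcases Int.even_or_odd ⌊(2 : ℝ) ^ n * x⌋ with h | h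
    · left; exact h.neg_one_zpow
    · right; exact h.neg_one_zpow
  · intro n j _ x hx y hy
    have key : ∀ z ∈ Ico ((j : ℝ) / 2 ^ n) (((j : ℝ) + 1) / 2 ^ n), ⌊(2 : ℝ) ^ n * z⌋ = j := by
      intro z hz
      have hp : (0 : ℝ) < 2 ^ n := by positivity
      rw [Int.floor_eq_iff]
      have h1 := (div_le_iff₀ hp).1 hz.1
      have h2 := (lt_div_iff₀ hp).1 hz.2
      constructor
      · push_cast; linarith
      · push_cast; linarith
    unfold rademacher
    rw [key x hx, key y hy]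

/-- the general theorem: all functions of the class have finite level sets almost everywhere -/
lemma finite_ae {f : ℝ → ℝ} (hf : InTv f) : ∀ᵐ y : ℝ, (levelSet f y).Finite := by
  obtain ⟨ω, hω, hf⟩ := hf
  have h : PP f := ⟨0, ω, hω, fun t h0 h1 => by rw [hf t h0 h1]; simp⟩
  have h2 := ae_finite cl_PP h
  rw [ae_iff]
  exact h2

theorem result :
    (∀ f : ℝ → ℝ, InTv f → ∀ᵐ y : ℝ, (levelSet f y).Finite) ∧
    (∀ᵐ y : ℝ, (levelSet grayTakagi y).Finite) :=
  ⟨fun _ hf => finite_ae hf, finite_ae ⟨rademacher, rademacher_data, fun _ _ _ => rfl⟩⟩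

end Pool.Agent.Results.MP_cc494f_an.LevelSets
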